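import Mathlib

/-!
MP_307271_an (Q1): a transitive system of finite entropy where both the spanning and the separation
growth rates oscillate. Definitions.
-/

set_option autoImplicit false

open Filter Topology

namespace Pool.Agent.Q259.OSC

/-! ### The definitions of the problem -/

section problem

variable {X : Type} [MetricSpace X] (F : X ≃ₜ X)

/-- `D_T(x, y) = max_{0 ≤ t ≤ T - 1} D(F^t x, F^t y)` -/
noncomputable def DT (T : ℕ) (x y : X) : ℝ := ⨆ t : Fin T, dist (F^[t] x) (F^[t] y)

/-- the largest size of an `ε`-separated set for `D_T` -/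
noncomputable def sep (ε : ℝ) (T : ℕ) : ℕ :=
  sSup {n | ∃ S : Finset X, S.card = n ∧ ∀ x ∈ S, ∀ y ∈ S, x ≠ y → ε ≤ DT F T x y}

/-- the smallest size of an `ε`-spanning set for `D_T` -/
noncomputable def spn (ε : ℝ) (T : ℕ) : ℕ :=
  sInf {n | ∃ S : Finset X, S.card = n ∧ ∀ x, ∃ s ∈ S, DT F T s x < ε}

/-- `liminf ln sep / T` -/
noncomputable def lowS (ε : ℝ) : EReal :=
  liminf (fun T : ℕ => ((Real.log (sep F ε T) / T : ℝ) : EReal)) atTop
/-- `limsup ln sep / T` -/
noncomputable def upS (ε : ℝ) : EReal :=
  limsup (fun T : ℕ => ((Real.log (sep F ε T) / T : ℝ) : EReal)) atTop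
/-- `liminf ln span / T` -/
noncomputable def lowP (ε : ℝ) : EReal :=
  liminf (fun T : ℕ => ((Real.log (spn F ε T) / T : ℝ) : EReal)) atTop
/-- `limsup ln span / T` -/
noncomputable def upP (ε : ℝ) : EReal :=
  limsup (fun T : ℕ => ((Real.log (spn F ε T) / T : ℝ) : EReal)) atTop

/-- the topological entropy: the limit of `upS F ε` as `ε → 0+`, i.e. the supremum -/
noncomputable def entropy : EReal := ⨆ (ε : ℝ) (_ : 0 < ε), upS F ε

end problem

/-! ### The example: letters -/

/-- the triples of a set with nine elements -/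
abbrev V : Type := {s : Finset (Fin 9) // s.card = 3}

/-- letters: `inl false` (zero), `inl true` (hash), `inr (false, v)` (type G), `inr (true, v)` (type H) -/
abbrev A : Type := Bool ⊕ (Bool × V)

/-- letters at distance 3 (or equal) -/
def Near : A → A → Prop
  | Sum.inr (false, u), Sum.inr (false, v) => (u.1 ∩ v.1).card = 1
  | Sum.inr (true, u), Sum.inr (true, v) => (u.1 ∩ v.1).card ≠ 1
  | _, _ => False

/-- letters at distance 4 -/
def Far (a b : A) : Prop := a ≠ b ∧ ¬ Near a b

/-! ### Words -/

def gap (z : Bool) (n : ℕ) : List A := List.replicate n (Sum.inl z)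
def gw (u : List V) : List A := u.map fun v => Sum.inr (false, v)
def hw (u : List V) : List A := u.map fun v => Sum.inr (true, v)

/-- the code word of `u` -/
def code (m : ℕ) (u : List V) : List A := gw u ++ gap true m ++ hw u

/-- all words of length `r` over `V` -/
noncomputable def allWords (r : ℕ) : List (List V) :=
  (Finset.univ : Finset (Fin r → V)).toList.map List.ofFn

/-- all code words, each preceded by zeros -/
noncomputable def body (m r : ℕ) : List A :=
  ((allWords r).map fun u => gap false m ++ code m u).flatten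

/-- the blocks -/
noncomputable def B : ℕ → List A
  | 0 => [Sum.inl false]
  | k + 1 => B k ++ body (B k).length ((k + 1) * (B k).length) ++ gap false (B k).length ++ B k

/-- `M k = |B k|` -/
noncomputable def M (k : ℕ) : ℕ := (B k).length

/-- `R k = (k + 1) M k` -/
noncomputable def R (k : ℕ) : ℕ := (k + 1) * M k

/-- the word `x_i ... x_{i+n-1}` -/
def word (x : ℤ → A) (i : ℤ) (n : ℕ) : List A := (List.range n).map fun t => x (i + t)

/-- the subshift: all finite subwords are subwords of the blocks -/
def XX : Set (ℤ → A) := {x | ∀ (i : ℤ) (n : ℕ), ∃ k, word x i n <:+: B k}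

/-- pieces of the words at the level `b` -/
def Piece (b p : List A) : Prop := (∃ u, p = gw u) ∨ (∃ u, p = hw u) ∨ p = b

/-- words built from pieces which are separated by gaps of length at least `m` -/
inductive Str (m : ℕ) (b : List A) : List A → Prop
  | piece (p : List A) : Piece b p → Str m b p
  | cons (p w : List A) (z : Bool) (g : ℕ) : Piece b p → m ≤ g → Str m b w →
      Str m b (p ++ gap z g ++ w)

/-- the form of the short subwords -/
def Win (b f : List A) : Prop := ∃ (z₁ z₂ : Bool) (a c : ℕ) (q : List A),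
  f = gap z₁ a ++ q ++ gap z₂ c ∧ ((∃ u, q = gw u) ∨ (∃ u, q = hw u) ∨ q <:+: b)

/-- `(X, F)` is the subshift `XX` (with the coordinates `c`), with a metric such that points are at
distance at least `4` iff the letters at `0` are far -/
structure IsModel {X : Type} [MetricSpace X] (F : X ≃ₜ X) (c : X → ℤ → A) : Prop where
  inj : Function.Injective c
  mem : ∀ x, c x ∈ XX
  surj : ∀ y ∈ XX, ∃ x, c x = y
  shift : ∀ x i, c (F x) i = c x (i + 1)
  far : ∀ x y, 4 ≤ dist x y ↔ Far (c x 0) (c y 0)
  close : ∀ ε > 0, ∃ N : ℕ, ∀ x y, (∀ i : ℤ, |i| ≤ N → c x i = c y i) → dist x y < ε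

end Pool.Agent.Q259.OSC
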