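import Pool.Agent.Q259.OSC.Defs

/-!
MP_307271_an (Q1), blueprint. Prove `theorem main (h : TaskY) ... : TaskX` in
`Pool/Agent/Q259/OSC/TaskX.lean`, namespace `Pool.Agent.Q259.OSC.TaskX`
(the tasks named under deps may be hypotheses).
-/

set_option autoImplicit false

open Filter Topology

namespace Pool.Agent.Q259.OSC

/-! ### codes: linear algebra bound -/

/-- The vectors `e_u(i) = ∏ t, φ (u t) (i t)` in `K^(m^n)` have inner products
`∏ t, ⟨φ (u t), φ (v t)⟩` (`Finset.prod_univ_sum`), so those of `S` are orthogonal and not isotropic,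
hence linearly independent. -/
def TaskRank : Prop := ∀ (K W : Type) [Field K] [DecidableEq W] (m n : ℕ) (φ : W → Fin m → K)
  (S : Finset (Fin n → W)), (∀ v, ∑ i, φ v i * φ v i ≠ 0) →
  (∀ u ∈ S, ∀ v ∈ S, u ≠ v → ∃ t, ∑ i, φ (u t) i * φ (v t) i = 0) → S.card ≤ m ^ n

/-- from TaskRank with `K = ZMod 2`, `φ v` the indicator: `⟨φ u, φ v⟩ = |u ∩ v|`; far letters of type G
have `|u ∩ v|` equal to `0` or `2` -/
def TaskG : Prop := ∀ (n : ℕ) (S : Finset (Fin n → V)),
  (∀ u ∈ S, ∀ v ∈ S, u ≠ v → ∃ t, Far (Sum.inr (false, u t)) (Sum.inr (false, v t))) →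
  S.card ≤ 9 ^ n

/-- from TaskRank with `K = ℚ`, `φ v = 3 * indicator - 1`: `⟨φ u, φ v⟩ = 9 (|u ∩ v| - 1)`; far letters
of type H have `|u ∩ v| = 1` -/
def TaskH : Prop := ∀ (n : ℕ) (S : Finset (Fin n → V)),
  (∀ u ∈ S, ∀ v ∈ S, u ≠ v → ∃ t, Far (Sum.inr (true, u t)) (Sum.inr (true, v t))) →
  S.card ≤ 9 ^ n

/-- from TaskG, TaskH: for given `z₁, z₂, a, c` (and start of the infix of `b`): at most
`9^T + 9^T + (|b| + 1)` words -/
def TaskCount : Prop := ∀ (T : ℕ) (b : List A) (S : Finset (Fin T → A)),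
  (∀ w ∈ S, Win b (List.ofFn w)) →
  (∀ w ∈ S, ∀ w' ∈ S, w ≠ w' → ∃ t, Far (w t) (w' t)) →
  S.card ≤ 4 * (T + 1) ^ 2 * (2 * 9 ^ T + (b.length + 1))

/-! ### words -/

/-- First by cases on `Str` for prefixes: a prefix of length `≤ m` of a `Str` word is
`q ++ gap z c`, `q` a prefix of a piece. Then induction on `Str`: a short infix of
`p ++ gap z g ++ w` is an infix of `p ++ gap z g`, or `gap z a ++ (prefix of w)`, or an infix of `w`. -/
def TaskWin : Prop := ∀ (m : ℕ) (b w f : List A), Str m b w → f <:+: w → f.length ≤ m → Win b f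

/-- induction on `j`; first: `Str` is closed under `w₁ ++ gap z g ++ w₂` for `g ≥ m`; `M` is monotone -/
def TaskStr : Prop := ∀ k j : ℕ, Str (M k) (B k) (B (k + j))

/-- `k + 1 ≤ M k`, `M` strictly monotone (a run of the two sides), prefixes -/
def TaskMono : Prop := (∀ k, k + 1 ≤ M k) ∧ StrictMono M ∧ (∀ k j, B k <+: B (k + j)) ∧
  (∀ k j, gap false (M (k + j)) ++ B k <:+: B (k + j + 1))

/-- The maximal subwords of `B j` without the letter `inl false` are code words of levels `< j`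
(induction on `j`); in a code word of level `i` the number of hashes is `M i`, so `i = k`. -/
def TaskRecog : Prop := StrictMono M → ∀ (j k : ℕ) (a b : List V), a.length = R k →
  b.length = R k → (gw a ++ gap true (M k) ++ hw b) <:+: B j → a = b

/-- The point `xs`: zeros at the negative places, the common extension of the blocks at the places
`≥ 0`. It is in `XX`, and all points of `XX` are limits of its forward orbit. -/
def TaskDense : Prop :=
  ((∀ k, k + 1 ≤ M k) ∧ StrictMono M ∧ (∀ k j, B k <+: B (k + j)) ∧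
    (∀ k j, gap false (M (k + j)) ++ B k <:+: B (k + j + 1))) →
  ∃ xs ∈ XX, (∀ k t, t < M k → xs (t : ℤ) = (B k).getD t (Sum.inl false)) ∧
    ∀ x ∈ XX, ∀ N : ℕ, ∃ n : ℕ, ∀ i : ℤ, |i| ≤ N → xs (i + n) = x i

/-- from TaskDense (the point `xs`): the code words occur in `XX` (`code` is an infix of `B (k+1)`,
shift `xs`) -/
def TaskCode : Prop :=
  (∃ xs ∈ XX, ∀ k t, t < M k → xs (t : ℤ) = (B k).getD t (Sum.inl false)) →
  ∀ (k : ℕ) (u : Fin (R k) → V), ∃ x ∈ XX, word x 0 (2 * R k + M k) = code (M k) (List.ofFn u)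

/-! ### the metric system -/

/-- A metric on `ℤ → A`: with the metric `0, 3, 4` on `A` put `max (dist (x 0) (y 0)) (ρ x y)`, `ρ ≤ 2`
a metric for the product topology (`PiCountable.metricSpace`, or `⨆ n, 2^(-|n|) [x n ≠ y n]`). -/
def TaskMetric : Prop := ∃ m : MetricSpace (ℤ → A),
  m.toPseudoMetricSpace.toUniformSpace.toTopologicalSpace =
    @Pi.topologicalSpace ℤ (fun _ => A) (fun _ => ⊥) ∧
  (∀ x y : ℤ → A, 4 ≤ m.dist x y ↔ Far (x 0) (y 0)) ∧
  ∀ ε > 0, ∃ N : ℕ, ∀ x y : ℤ → A, (∀ i : ℤ, |i| ≤ N → x i = y i) → m.dist x y < ε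

/-- from TaskMetric: the subtype `XX` (closed, shift invariant) of `ℤ → A` with the induced metric -/
def TaskModel : Prop := ∃ (X : Type) (_ : MetricSpace X) (_ : CompactSpace X) (F : X ≃ₜ X)
  (c : X → ℤ → A), IsModel F c

/-- from TaskDense -/
def TaskTrans : Prop :=
  (∃ xs ∈ XX, ∀ x ∈ XX, ∀ N : ℕ, ∃ n : ℕ, ∀ i : ℤ, |i| ≤ N → xs (i + n) = x i) →
  ∀ (X : Type) [MetricSpace X] (F : X ≃ₜ X) (c : X → ℤ → A), IsModel F c →
    ∃ x, Dense (Set.range fun n : ℕ => F^[n] x)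

/-- finite spanning sets exist: compactness, `DT F T` is continuous (or `F^[t]` uniformly continuous) -/
def TaskFin : Prop := ∀ (X : Type) [MetricSpace X] [CompactSpace X] (F : X ≃ₜ X) (ε : ℝ) (T : ℕ),
  0 < ε → 1 ≤ T → ∃ S : Finset X, ∀ x, ∃ s ∈ S, DT F T s x < ε

/-- from TaskFin: the largest separated set is spanning; an `ε/2`-spanning set bounds the size of the
`ε`-separated sets (pigeonhole) -/
def TaskSpnSep : Prop := ∀ (X : Type) [MetricSpace X] [CompactSpace X] (F : X ≃ₜ X) (ε : ℝ) (T : ℕ),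
  0 < ε → 1 ≤ T → spn F ε T ≤ sep F ε T

/-- upper bound at the scale `M k`; from TaskStr, TaskWin, TaskCount (the words `word (c x) 0 (M k)` are
infixes of some `B j`; for `j < k` use the prefixes `B j <+: B k` and `Win` with `q = f`) -/
def TaskUp : Prop := (∀ k j, B k <+: B (k + j)) →
  ∀ (X : Type) [MetricSpace X] [CompactSpace X] (F : X ≃ₜ X) (c : X → ℤ → A), IsModel F c →
    ∀ k, sep F 4 (M k) ≤ 4 * (M k + 1) ^ 2 * (2 * 9 ^ (M k) + (M k + 1))

/-- lower bound at the scale `2 R k + M k`; from TaskFin (the set in `spn` is not empty), TaskRecog,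
TaskCode (in the hypotheses): a point of a spanning set
is close to the point with code word `u` only if its word is `gw a ++ gap true (M k) ++ hw b`,
so `a = b`, and then `a = u`; there are `84 ^ (R k)` words `u` -/
def TaskLow : Prop :=
  (∀ (j k : ℕ) (a b : List V), a.length = R k → b.length = R k →
    (gw a ++ gap true (M k) ++ hw b) <:+: B j → a = b) →
  (∀ (k : ℕ) (u : Fin (R k) → V), ∃ x ∈ XX, word x 0 (2 * R k + M k) = code (M k) (List.ofFn u)) →
  ∀ (X : Type) [MetricSpace X] [CompactSpace X] (F : X ≃ₜ X) (c : X → ℤ → A), IsModel F c →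
    ∀ k, 1 ≤ R k → 84 ^ (R k) ≤ spn F 4 (2 * R k + M k)

/-- finite entropy: `sep F ε T ≤ |A| ^ (T + 2 N + 1)`, so `upS F ε ≤ log |A|` -/
def TaskEnt : Prop := ∀ (X : Type) [MetricSpace X] [CompactSpace X] (F : X ≃ₜ X) (c : X → ℤ → A),
  IsModel F c → entropy F < ⊤

/-! ### limits -/

/-- `log 9 < log 84 / 2`, subsequences -/
def TaskLim : Prop := ∀ (m : ℕ → ℕ) (s p : ℕ → ℕ), StrictMono m → (∀ k, k + 1 ≤ m k) →
  (∀ T, 1 ≤ T → p T ≤ s T) →
  (∀ k, s (m k) ≤ 4 * (m k + 1) ^ 2 * (2 * 9 ^ (m k) + (m k + 1))) →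
  (∀ k, 84 ^ ((k + 1) * m k) ≤ p (2 * ((k + 1) * m k) + m k)) →
  liminf (fun T : ℕ => ((Real.log (p T) / T : ℝ) : EReal)) atTop <
    limsup (fun T : ℕ => ((Real.log (p T) / T : ℝ) : EReal)) atTop ∧
  liminf (fun T : ℕ => ((Real.log (s T) / T : ℝ) : EReal)) atTop <
    limsup (fun T : ℕ => ((Real.log (s T) / T : ℝ) : EReal)) atTop

/-- The answer to Q1. -/
def Answer : Prop := ∃ (X : Type) (_ : MetricSpace X) (_ : CompactSpace X) (F : X ≃ₜ X),
  (∃ x, Dense (Set.range fun n : ℕ => F^[n] x)) ∧ entropy F < ⊤ ∧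
  ∃ ε > 0, lowP F ε < upP F ε ∧ lowS F ε < upS F ε

end Pool.Agent.Q259.OSC
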